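import Pool.Agent.H474.MS.Stm

/-! Proof of `S_N1`. -/

open MeasureTheory Filter Topology Set

namespace Pool.Agent.H887.MS.N1

open Pool.Agent.H474.MS

theorem ii_of_bound {g : ℝ → ℝ} (hg : Measurable g) {V B : ℝ} (hV : 0 ≤ V)
    (h : ∀ v ∈ Icc 0 V, |g v| ≤ B) : IntervalIntegrable g volume 0 V := by
  refine (intervalIntegrable_const (c := B)).mono_fun' hg.aestronglyMeasurable ?_
  rw [EventuallyLE, ae_restrict_iff' measurableSet_uIoc]
  refine Eventually.of_forall fun v hv => ?_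
  rw [uIoc_of_le hV] at hv
  exact h v ⟨hv.1.le, hv.2⟩

theorem t_N1 : Pool.Agent.H474.MS.S_N1 := by
  intro f hf hb W c h hh hW hc
  have hfh : Measurable fun v => f (v + h) := hf.comp (measurable_id.add_const h)
  have hbV : ∀ V : ℝ, ∃ B : ℝ, 0 ≤ B ∧ (∀ v ∈ Icc 0 V, |f v| ≤ B) ∧
      ∀ v ∈ Icc 0 V, |f (v + h)| ≤ B := by
    intro V
    obtain ⟨B, hB⟩ := hb (V + h)
    refine ⟨max B 0, le_max_right _ _, fun v hv => (hB v ⟨hv.1, by linarith [hv.2]⟩).trans
      (le_max_left _ _), fun v hv => (hB (v + h) ⟨by linarith [hv.1], by linarith [hv.2]⟩).trans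
      (le_max_left _ _)⟩
  -- integrability
  have i1 : ∀ V : ℝ, 0 ≤ V → IntervalIntegrable (fun v => f v ^ 2) volume 0 V := by
    intro V hV
    obtain ⟨B, hB0, hB1, hB2⟩ := hbV V
    refine ii_of_bound (hf.pow_const 2) hV (B := B ^ 2) fun v hv => ?_
    rw [abs_pow]
    exact pow_le_pow_left₀ (abs_nonneg _) (hB1 v hv) 2
  have i2 : ∀ V : ℝ, 0 ≤ V → IntervalIntegrable (fun v => f v * f (v + h)) volume 0 V := by
    intro V hV
    obtain ⟨B, hB0, hB1, hB2⟩ := hbV V
    refine ii_of_bound (hf.mul hfh) hV (B := B * B) fun v hv => ?_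
    rw [Pi.mul_apply, abs_mul]
    exact mul_le_mul (hB1 v hv) (hB2 v hv) (abs_nonneg _) hB0
  have i3 : ∀ V : ℝ, 0 ≤ V → IntervalIntegrable (fun v => f (v + h) ^ 2) volume 0 V := by
    intro V hV
    obtain ⟨B, hB0, hB1, hB2⟩ := hbV V
    refine ii_of_bound (hfh.pow_const 2) hV (B := B ^ 2) fun v hv => ?_
    rw [abs_pow]
    exact pow_le_pow_left₀ (abs_nonneg _) (hB2 v hv) 2
  -- the shifted mean
  obtain ⟨F0, hF0⟩ : ∃ F0 : ℝ, F0 = ∫ v in (0 : ℝ)..h, f v ^ 2 := ⟨_, rfl⟩
  have hshift : Tendsto (mean fun v => f (v + h) ^ 2) atTop (𝓝 W) := by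
    have h1 : Tendsto (fun V : ℝ => V + h) atTop atTop := tendsto_atTop_add_const_right _ _ tendsto_id
    have h2 := hW.comp h1
    have h3 : Tendsto (fun V : ℝ => h / V) atTop (𝓝 0) := tendsto_const_nhds.div_atTop tendsto_id
    have h4 : Tendsto (fun V : ℝ => F0 / V) atTop (𝓝 0) := tendsto_const_nhds.div_atTop tendsto_id
    have h5 := (h2.mul (h3.const_add 1)).sub h4
    rw [add_zero, mul_one, sub_zero] at h5
    refine h5.congr' ?_
    filter_upwards [eventually_gt_atTop 0] with V hV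
    have hVh : V + h ≠ 0 := by linarith
    have e1 : ∫ v in (0 : ℝ)..V, f (v + h) ^ 2 = (∫ v in (0 : ℝ)..(V + h), f v ^ 2) - F0 := by
      rw [intervalIntegral.integral_comp_add_right (fun x => f x ^ 2) h, zero_add, hF0]
      have e2 := intervalIntegral.integral_add_adjacent_intervals (i1 h hh)
        ((i1 h hh).symm.trans (i1 (V + h) (by linarith)))
      linarith
    simp only [Function.comp, mean]
    rw [e1]
    have hV0 : V ≠ 0 := hV.ne'
    field_simp
  -- assembly
  have hsum := ((hshift.const_mul (Real.exp h)).add hW).sub (hc.const_mul (2 * Real.exp (h / 2)))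
  have e0 : Real.exp h * W + W - 2 * Real.exp (h / 2) * c =
      (Real.exp h + 1) * W - 2 * Real.exp (h / 2) * c := by ring
  rw [e0] at hsum
  refine hsum.congr' ?_
  filter_upwards [eventually_gt_atTop 0] with V hV
  have he : Real.exp (h / 2) ^ 2 = Real.exp h := by
    rw [← Real.exp_nat_mul]
    congr 1
    push_cast
    ring
  have e3 : ∫ v in (0 : ℝ)..V, (Real.exp (h / 2) * f (v + h) - f v) ^ 2 =
      Real.exp h * (∫ v in (0 : ℝ)..V, f (v + h) ^ 2) + (∫ v in (0 : ℝ)..V, f v ^ 2) -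
        2 * Real.exp (h / 2) * ∫ v in (0 : ℝ)..V, f v * f (v + h) := by
    rw [← intervalIntegral.integral_const_mul, ← intervalIntegral.integral_const_mul,
      ← intervalIntegral.integral_add ((i3 V hV.le).const_mul _) (i1 V hV.le),
      ← intervalIntegral.integral_sub (((i3 V hV.le).const_mul _).add (i1 V hV.le))
        ((i2 V hV.le).const_mul _)]
    refine intervalIntegral.integral_congr fun v _ => ?_
    rw [← he]
    ring
  simp only [mean]
  rw [e3]
  ring

end Pool.Agent.H887.MS.N1
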